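import Mathlib

/-!
# The monoid of strictly increasing self-maps of `ℕ` has no finest Polish semigroup topology
-/

set_option autoImplicit false
set_option linter.style.haveILetI false

namespace Pool.Agent.Results.MP_0c7c8f_al.NoFinest

open Topology Filter Set

universe u

/-- The monoid `End(ℕ, <)` of all strictly increasing maps. -/
def EndN : Type := {f : ℕ → ℕ // StrictMono f}

instance : Monoid EndN where
  mul f g := ⟨f.1 ∘ g.1, f.2.comp g.2⟩
  one := ⟨id, strictMono_id⟩
  mul_assoc _ _ _ := rfl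
  one_mul _ := rfl
  mul_one _ := rfl

/-- A Polish semigroup topology on a semigroup. -/
def IsPolishSemigroupTopology {S : Type u} [Semigroup S] (t : TopologicalSpace S) : Prop :=
  @PolishSpace S t ∧ @ContinuousMul S t _

/-! ## `G_δ` subsets of Polish spaces -/

theorem polish_of_isGδ {X : Type*} [TopologicalSpace X] [PolishSpace X] {s : Set X}
    (hs : IsGδ s) : PolishSpace s := by
  obtain ⟨U, hU, rfl⟩ := isGδ_iff_eq_iInter_nat.mp hs
  haveI : ∀ n, PolishSpace (U n) := fun n => (hU n).polishSpace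
  let F : (⋂ n, U n : Set X) → ∀ n, U n := fun x n => ⟨x.1, mem_iInter.mp x.2 n⟩
  have hF : IsClosedEmbedding F := by
    refine ⟨⟨⟨?_⟩, ?_⟩, ?_⟩
    · apply le_antisymm
      · rw [← continuous_iff_le_induced]
        exact continuous_pi fun n => continuous_subtype_val.subtype_mk _
      · have h1 : Continuous fun y : (∀ n, U n) => (y 0 : X) :=
          continuous_subtype_val.comp (continuous_apply 0)
        have h2 : (fun x : (⋂ n, U n : Set X) => (x : X)) = (fun y => (y 0 : X)) ∘ F := rfl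
        show TopologicalSpace.induced F _ ≤ TopologicalSpace.induced Subtype.val _
        rw [show (Subtype.val : (⋂ n, U n : Set X) → X) = (fun y => (y 0 : X)) ∘ F from h2,
          ← induced_compose]
        exact induced_mono (continuous_iff_le_induced.mp h1)
    · intro x y h
      have h0 : (F x 0 : X) = (F y 0 : X) := by rw [h]
      exact Subtype.ext h0
    · have h1 : range F = ⋂ n, {y : ∀ n, U n | (y n : X) = y 0} := by
        ext y
        simp only [mem_range, mem_iInter, mem_ofPred_eq]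
        constructor
        · rintro ⟨x, rfl⟩ n
          rfl
        · intro h
          refine ⟨⟨y 0, mem_iInter.mpr fun n => ?_⟩, ?_⟩
          · rw [← h n]; exact (y n).2
          · funext n
            exact Subtype.ext (h n).symm
      rw [h1]
      refine isClosed_iInter fun n => isClosed_eq ?_ ?_
      · exact continuous_subtype_val.comp (continuous_apply n)
      · exact continuous_subtype_val.comp (continuous_apply 0)
  exact hF.polishSpace

theorem isGδ_eq {X : Type*} [TopologicalSpace X] [TopologicalSpace.MetrizableSpace X]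
    {F G : X → ENNReal} (hF : LowerSemicontinuous F) (hG : Continuous G) :
    IsGδ {x | F x = G x} := by
  have h1 : IsClosed {x | F x ≤ G x} := by
    have h2 : {x | F x ≤ G x} = (fun x => (x, G x)) ⁻¹' {p : X × ENNReal | F p.1 ≤ p.2} := rfl
    rw [h2]
    exact hF.isClosed_epigraph.preimage (continuous_id.prodMk hG)
  have h2 : {x | F x = G x} = {x | F x ≤ G x} ∩
      ⋂ q : NNRat, ({x | G x ≤ ((q : NNReal) : ENNReal)} ∪ {x | ((q : NNReal) : ENNReal) < F x}) := by
    ext x
    simp only [mem_ofPred_eq, mem_inter_iff, mem_iInter, mem_union]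
    constructor
    · intro h
      refine ⟨h.le, fun q => ?_⟩
      rw [h]
      exact le_or_gt _ _
    · rintro ⟨h3, h4⟩
      apply le_antisymm h3
      by_contra hlt
      push Not at hlt
      obtain ⟨q, hq, hq1, hq2⟩ := ENNReal.lt_iff_exists_rat_btwn.mp hlt
      let q' : NNRat := ⟨q, hq⟩
      have e : ((Real.toNNReal q : NNReal) : ENNReal) = ((q' : NNReal) : ENNReal) := by
        congr 1
        apply NNReal.eq
        rw [Real.coe_toNNReal _ (by exact_mod_cast hq)]
        rfl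
      rcases h4 q' with h5 | h5
      · rw [← e] at h5
        exact absurd (lt_of_lt_of_le hq2 h5) (lt_irrefl _)
      · rw [← e] at h5
        exact absurd (lt_trans hq1 h5) (lt_irrefl _)
  rw [h2]
  refine h1.isGδ.inter (IsGδ.iInter fun q => ?_)
  exact (isClosed_le hG continuous_const).isGδ.union (hF.isOpen_preimage _).isGδ

/-! ## The size of a map -/

/-- The weighted sum of the numbers `h n - n`. -/
noncomputable def N0 (w : ℕ → NNReal) (h : ℕ → ℕ) : ENNReal :=
  ∑' n, ((h n - n : ℕ) : ENNReal) * (w n : ENNReal)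

/-- The size of an element of `End(ℕ, <)`. -/
noncomputable def N (w : ℕ → NNReal) (f : EndN) : ENNReal := N0 w f.1

theorem lsc_N0 (w : ℕ → NNReal) {X : Type*} [TopologicalSpace X] {h : X → ℕ → ℕ}
    (hh : Continuous h) : LowerSemicontinuous fun x => N0 w (h x) := by
  apply lowerSemicontinuous_tsum
  intro n
  apply Continuous.lowerSemicontinuous
  have h1 : Continuous fun m : ℕ => ((m - n : ℕ) : ENNReal) * (w n : ENNReal) :=
    continuous_of_discreteTopology
  exact h1.comp ((continuous_apply n).comp hh)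

theorem le_self (f : EndN) (n : ℕ) : n ≤ f.1 n := f.2.id_le n

theorem k_mono (f : EndN) {m n : ℕ} (h : m ≤ n) : f.1 m - m ≤ f.1 n - n := by
  induction n, h using Nat.le_induction with
  | base => exact le_rfl
  | succ n hn ih =>
    have h1 := f.2 (Nat.lt_add_one n)
    have h2 := le_self f n
    omega

theorem mul_apply (f g : EndN) (n : ℕ) : (f * g).1 n = f.1 (g.1 n) := rfl

theorem k_mul (f g : EndN) (n : ℕ) :
    (f * g).1 n - n = (f.1 (g.1 n) - g.1 n) + (g.1 n - n) := by
  rw [mul_apply]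
  have h1 := le_self f (g.1 n)
  have h2 := le_self g n
  omega

theorem N_left_le (w : ℕ → NNReal) (f g : EndN) : N w f ≤ N w (f * g) := by
  apply ENNReal.tsum_le_tsum
  intro n
  apply mul_le_mul_left
  have h1 := k_mono f (le_self g n)
  have h2 := k_mul f g n
  exact_mod_cast (by omega : f.1 n - n ≤ (f * g).1 n - n)

theorem N_right_le (w : ℕ → NNReal) (f g : EndN) : N w g ≤ N w (f * g) := by
  apply ENNReal.tsum_le_tsum
  intro n
  apply mul_le_mul_left
  have h2 := k_mul f g n
  exact_mod_cast (by omega : g.1 n - n ≤ (f * g).1 n - n)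

/-- The properties of the weights that make the size compatible with composition. -/
structure Good (w : ℕ → NNReal) : Prop where
  anti : Antitone w
  doubling : ∃ C : NNReal, ∀ n, w n ≤ C * w (2 * n)
  large : ∀ M : NNReal, ∃ n₀ : ℕ, ∀ n, n₀ ≤ n → M < n * (n * w (2 * n))

/-- The tail of the size. -/
noncomputable def tail (w : ℕ → NNReal) (f : EndN) (K : ℕ) : ENNReal :=
  ∑' n, ((f.1 (n + K) - (n + K) : ℕ) : ENNReal) * (w (n + K) : ENNReal)

/-- The head of the size. -/
noncomputable def head (w : ℕ → NNReal) (f : EndN) (K : ℕ) : ENNReal :=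
  ∑ n ∈ Finset.range K, ((f.1 n - n : ℕ) : ENNReal) * (w n : ENNReal)

theorem head_add_tail (w : ℕ → NNReal) (f : EndN) (K : ℕ) : head w f K + tail w f K = N w f :=
  ENNReal.summable.sum_add_tsum_nat_add' (f := fun n => ((f.1 n - n : ℕ) : ENNReal) * (w n : ENNReal))

theorem head_ne_top (w : ℕ → NNReal) (f : EndN) (K : ℕ) : head w f K ≠ ⊤ := by
  apply ENNReal.sum_ne_top.mpr
  intro n _
  exact ENNReal.mul_ne_top (ENNReal.natCast_ne_top _) ENNReal.coe_ne_top

theorem tail_tendsto {w : ℕ → NNReal} {f : EndN} (hf : N w f ≠ ⊤) :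
    Tendsto (tail w f) atTop (𝓝 0) :=
  ENNReal.tendsto_sum_nat_add (fun n => ((f.1 n - n : ℕ) : ENNReal) * (w n : ENNReal)) hf

/-- Maps of bounded size grow at most linearly. -/
theorem growth {w : ℕ → NNReal} (hw : Good w) (M : NNReal) :
    ∃ K : ℕ, ∀ g : EndN, N w g ≤ M → ∀ n, K ≤ n → g.1 n ≤ 2 * n := by
  obtain ⟨n₀, hn₀⟩ := hw.large M
  refine ⟨n₀, fun g hg n hn => ?_⟩
  by_contra hcon
  push Not at hcon
  have h1 := hn₀ n hn
  have h2 : ((n * (n * w (2 * n)) : NNReal) : ENNReal) ≤ N w g := by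
    have h3 : ∑ m ∈ Finset.Ico n (2 * n), ((g.1 m - m : ℕ) : ENNReal) * (w m : ENNReal) ≤ N w g :=
      ENNReal.sum_le_tsum _
    refine le_trans ?_ h3
    have h4 : ((n * (n * w (2 * n)) : NNReal) : ENNReal) =
        ∑ _m ∈ Finset.Ico n (2 * n), ((n : ENNReal) * (w (2 * n) : ENNReal)) := by
      rw [Finset.sum_const, Nat.card_Ico, nsmul_eq_mul]
      have : 2 * n - n = n := by omega
      rw [this]
      push_cast
      rfl
    rw [h4]
    apply Finset.sum_le_sum
    intro m hm
    rw [Finset.mem_Ico] at hm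
    apply mul_le_mul'
    · have h5 := k_mono g hm.1
      exact_mod_cast (by omega : n ≤ g.1 m - m)
    · exact_mod_cast hw.anti hm.2.le
  have h3 : ((n * (n * w (2 * n)) : NNReal) : ENNReal) ≤ (M : ENNReal) := h2.trans hg
  exact absurd (lt_of_lt_of_le h1 (by exact_mod_cast h3)) (lt_irrefl _)

theorem tail_mul {w : ℕ → NNReal} {C : NNReal} (hC : ∀ n, w n ≤ C * w (2 * n)) (f g : EndN) {K : ℕ}
    (hg : ∀ n, K ≤ n → g.1 n ≤ 2 * n) :
    tail w (f * g) K ≤ C * tail w f K + tail w g K := by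
  have h1 : tail w (f * g) K ≤
      ∑' n, ((C : ENNReal) * (((f.1 ((2 * n + K) + K) - ((2 * n + K) + K) : ℕ) : ENNReal) *
        (w ((2 * n + K) + K) : ENNReal)) +
        ((g.1 (n + K) - (n + K) : ℕ) : ENNReal) * (w (n + K) : ENNReal)) := by
    apply ENNReal.tsum_le_tsum
    intro n
    have e : (2 * n + K) + K = 2 * (n + K) := by ring
    rw [k_mul, Nat.cast_add, add_mul, e]
    apply add_le_add_left
    have h2 := k_mono f (hg (n + K) (by omega))
    have h3 : (w (n + K) : ENNReal) ≤ (C : ENNReal) * (w (2 * (n + K)) : ENNReal) := by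
      exact_mod_cast hC (n + K)
    calc ((f.1 (g.1 (n + K)) - g.1 (n + K) : ℕ) : ENNReal) * (w (n + K) : ENNReal)
        ≤ ((f.1 (2 * (n + K)) - 2 * (n + K) : ℕ) : ENNReal) *
          ((C : ENNReal) * (w (2 * (n + K)) : ENNReal)) :=
          mul_le_mul' (by exact_mod_cast h2) h3
      _ = _ := by ring
  refine h1.trans ?_
  rw [ENNReal.tsum_add, ENNReal.tsum_mul_left]
  apply add_le_add_left
  apply mul_le_mul_right
  have hinj : Function.Injective fun n : ℕ => 2 * n + K := by
    intro a b h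
    simp only at h
    omega
  exact ENNReal.tsum_comp_le_tsum_of_injective hinj
    (fun n => ((f.1 (n + K) - (n + K) : ℕ) : ENNReal) * (w (n + K) : ENNReal))

theorem tail_le (w : ℕ → NNReal) (f : EndN) (K : ℕ) : tail w f K ≤ N w f := by
  rw [← head_add_tail w f K]
  exact le_add_self

theorem N_mul_lt_top {w : ℕ → NNReal} (hw : Good w) {f g : EndN} (hf : N w f < ⊤)
    (hg : N w g < ⊤) : N w (f * g) < ⊤ := by
  obtain ⟨C, hC⟩ := hw.doubling
  obtain ⟨K, hK⟩ := growth hw (N w g).toNNReal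
  have h1 := hK g (by rw [ENNReal.coe_toNNReal hg.ne])
  rw [← head_add_tail w (f * g) K]
  refine ENNReal.add_lt_top.mpr ⟨(head_ne_top w _ K).lt_top, ?_⟩
  refine lt_of_le_of_lt (tail_mul hC f g h1) ?_
  refine ENNReal.add_lt_top.mpr ⟨ENNReal.mul_lt_top ENNReal.coe_lt_top ?_, ?_⟩
  · exact lt_of_le_of_lt (tail_le w f K) hf
  · exact lt_of_le_of_lt (tail_le w g K) hg

theorem N_mul_lt_top_iff {w : ℕ → NNReal} (hw : Good w) (f g : EndN) :
    N w (f * g) < ⊤ ↔ N w f < ⊤ ∧ N w g < ⊤ :=
  ⟨fun h => ⟨lt_of_le_of_lt (N_left_le w f g) h, lt_of_le_of_lt (N_right_le w f g) h⟩,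
    fun h => N_mul_lt_top hw h.1 h.2⟩

/-! ## The topologies -/

open Classical in
/-- The map that defines the topology. -/
noncomputable def Phi (w : ℕ → NNReal) (f : EndN) : (ℕ → ℕ) × ℝ × Bool :=
  (f.1, (N w f).toReal, decide (N w f < ⊤))

/-- The topology for the weights `w`. -/
@[reducible] noncomputable def tw (w : ℕ → NNReal) : TopologicalSpace EndN :=
  TopologicalSpace.induced (Phi w) inferInstance

theorem polish_tw (w : ℕ → NNReal) : @PolishSpace EndN (tw w) := by
  classical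
  let A : Set ((ℕ → ℕ) × ℝ × Bool) := {y | StrictMono y.1} ∩
    ((({y | y.2.2 = true} ∩ {y | 0 ≤ y.2.1}) ∩ {y | N0 w y.1 = ENNReal.ofReal y.2.1}) ∪
      (({y | y.2.2 = false} ∩ {y | y.2.1 = 0}) ∩ {y | N0 w y.1 = ⊤}))
  have hA : A = range (Phi w) := by
    ext y
    simp only [A, mem_inter_iff, mem_ofPred_eq, mem_union, mem_range]
    constructor
    · rintro ⟨h1, h2⟩
      refine ⟨⟨y.1, h1⟩, ?_⟩
      have hN : N w (⟨y.1, h1⟩ : EndN) = N0 w y.1 := rfl
      rcases h2 with ⟨⟨h3, h4⟩, h5⟩ | ⟨⟨h3, h4⟩, h5⟩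
      · refine Prod.ext rfl (Prod.ext ?_ ?_)
        · show (N w _).toReal = _
          rw [hN, h5, ENNReal.toReal_ofReal h4]
        · show decide (N w _ < ⊤) = _
          rw [h3, hN, h5]
          exact decide_eq_true ENNReal.ofReal_lt_top
      · refine Prod.ext rfl (Prod.ext ?_ ?_)
        · show (N w _).toReal = _
          rw [hN, h5, h4]; rfl
        · show decide (N w _ < ⊤) = _
          rw [h3, hN, h5]
          exact decide_eq_false (lt_irrefl _)
    · rintro ⟨f, rfl⟩
      refine ⟨f.2, ?_⟩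
      by_cases h : N w f < ⊤
      · left
        refine ⟨⟨decide_eq_true h, ENNReal.toReal_nonneg⟩, ?_⟩
        show N w f = ENNReal.ofReal (N w f).toReal
        rw [ENNReal.ofReal_toReal h.ne]
      · right
        have h' : N w f = ⊤ := not_lt_top_iff.mp h
        refine ⟨⟨decide_eq_false h, ?_⟩, h'⟩
        show (N w f).toReal = 0
        rw [h']; rfl
  have hc1 : Continuous fun y : (ℕ → ℕ) × ℝ × Bool => y.1 := continuous_fst
  have hc2 : Continuous fun y : (ℕ → ℕ) × ℝ × Bool => y.2.1 := continuous_fst.comp continuous_snd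
  have hc3 : Continuous fun y : (ℕ → ℕ) × ℝ × Bool => y.2.2 := continuous_snd.comp continuous_snd
  have hlsc : LowerSemicontinuous fun y : (ℕ → ℕ) × ℝ × Bool => N0 w y.1 :=
    lsc_N0 w hc1
  have hS : IsClosed {y : (ℕ → ℕ) × ℝ × Bool | StrictMono y.1} := by
    have h1 : {y : (ℕ → ℕ) × ℝ × Bool | StrictMono y.1} =
        ⋂ n : ℕ, {y : (ℕ → ℕ) × ℝ × Bool | y.1 n < y.1 (n + 1)} := by
      ext y
      simp only [mem_ofPred_eq, mem_iInter]
      exact ⟨fun h n => h (Nat.lt_add_one n), strictMono_nat_of_lt_succ⟩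
    rw [h1]
    refine isClosed_iInter fun n => ?_
    have h2 : Continuous fun y : (ℕ → ℕ) × ℝ × Bool => (y.1 n, y.1 (n + 1)) :=
      ((continuous_apply n).comp hc1).prodMk ((continuous_apply (n + 1)).comp hc1)
    exact (isClosed_discrete {q : ℕ × ℕ | q.1 < q.2}).preimage h2
  have hG : IsGδ A := by
    refine hS.isGδ.inter (IsGδ.union ?_ ?_)
    · refine IsGδ.inter (IsGδ.inter ?_ ?_) (isGδ_eq hlsc (ENNReal.continuous_ofReal.comp hc2))
      · exact ((isClosed_discrete {true}).preimage hc3).isGδ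
      · exact (isClosed_le continuous_const hc2).isGδ
    · refine IsGδ.inter (IsGδ.inter ?_ ?_) (isGδ_eq hlsc continuous_const)
      · exact ((isClosed_discrete {false}).preimage hc3).isGδ
      · exact (isClosed_eq hc2 continuous_const).isGδ
  rw [hA] at hG
  haveI := polish_of_isGδ hG
  have hinj : Function.Injective (Phi w) := fun f g h => Subtype.ext (congrArg Prod.fst h)
  let e : EndN ≃ range (Phi w) := Equiv.ofInjective _ hinj
  have h1 := e.polishSpace_induced
  have h2 : TopologicalSpace.induced e inferInstance = tw w := by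
    show TopologicalSpace.induced e (TopologicalSpace.induced Subtype.val _) = _
    rw [induced_compose]
    rfl
  rwa [h2] at h1

section cont

variable (w : ℕ → NNReal)

theorem continuous_pt : @Continuous EndN (ℕ → ℕ) (tw w) _ fun f => f.1 := by
  letI := tw w
  have h : Continuous (Phi w) := continuous_induced_dom
  exact continuous_fst.comp h

theorem continuous_toReal : @Continuous EndN ℝ (tw w) _ fun f => (N w f).toReal := by
  letI := tw w
  have h : Continuous (Phi w) := continuous_induced_dom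
  exact (continuous_fst.comp continuous_snd).comp h

open Classical in
theorem continuous_dec : @Continuous EndN Bool (tw w) _ fun f => decide (N w f < ⊤) := by
  letI := tw w
  have h : Continuous (Phi w) := continuous_induced_dom
  exact (continuous_snd.comp continuous_snd).comp h

theorem isOpen_top : @IsOpen EndN (tw w) {f | N w f = ⊤} := by
  classical
  letI := tw w
  have h1 : {f | N w f = ⊤} = (fun f => decide (N w f < ⊤)) ⁻¹' {false} := by
    ext f
    simp only [mem_ofPred_eq, mem_preimage, mem_singleton_iff, decide_eq_false_iff_not,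
      not_lt_top_iff]
  rw [h1]
  exact (isOpen_discrete _).preimage (continuous_dec w)

theorem isOpen_fin : @IsOpen EndN (tw w) {f | N w f < ⊤} := by
  classical
  letI := tw w
  have h1 : {f | N w f < ⊤} = (fun f => decide (N w f < ⊤)) ⁻¹' {true} := by
    ext f
    simp only [mem_ofPred_eq, mem_preimage, mem_singleton_iff, decide_eq_true_eq]
  rw [h1]
  exact (isOpen_discrete _).preimage (continuous_dec w)

theorem tendsto_N {f₀ : EndN} (h : N w f₀ < ⊤) :
    Tendsto (N w) (@nhds EndN (tw w) f₀) (𝓝 (N w f₀)) := by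
  letI := tw w
  have h1 : Tendsto (fun f => ENNReal.ofReal (N w f).toReal) (𝓝 f₀) (𝓝 (N w f₀)) := by
    have h2 := (ENNReal.continuous_ofReal.comp (continuous_toReal w)).tendsto f₀
    simp only [Function.comp_apply] at h2
    rwa [ENNReal.ofReal_toReal h.ne] at h2
  refine h1.congr' ?_
  filter_upwards [(isOpen_fin w).mem_nhds h] with f hf
  exact ENNReal.ofReal_toReal (ne_of_lt hf)

end cont

section mul

theorem eventually_agree (w : ℕ → NNReal) (f₀ : EndN) (K : ℕ) :
    ∀ᶠ f in @nhds EndN (tw w) f₀, ∀ n < K, f.1 n = f₀.1 n := by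
  letI := tw w
  have h1 : Tendsto (fun f : EndN => f.1) (𝓝 f₀) (𝓝 f₀.1) := (continuous_pt w).tendsto f₀
  have h2 : ∀ n, ∀ᶠ f in 𝓝 f₀, f.1 n = f₀.1 n := fun n => by
    have h3 := tendsto_pi_nhds.mp h1 n
    rw [nhds_discrete ℕ] at h3
    exact tendsto_pure.mp h3
  exact (Filter.eventually_all_finite (Set.finite_lt_nat K)).mpr (fun n _ => h2 n)

theorem eventually_agree_mul (w : ℕ → NNReal) (p₀ : EndN × EndN) (K : ℕ) :
    ∀ᶠ p : EndN × EndN in
      @nhds (EndN × EndN) (@instTopologicalSpaceProd _ _ (tw w) (tw w)) p₀,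
      ∀ n < K, (p.1 * p.2).1 n = (p₀.1 * p₀.2).1 n := by
  letI := tw w
  refine (Filter.eventually_all_finite (Set.finite_lt_nat K)).mpr (fun n _ => ?_)
  have h1 : ∀ᶠ p : EndN × EndN in 𝓝 p₀, p.2.1 n = p₀.2.1 n :=
    ((continuous_snd.tendsto p₀).eventually (eventually_agree w p₀.2 (n + 1))).mono
      (fun p hp => hp n (Nat.lt_succ_self n))
  have h2 : ∀ᶠ p : EndN × EndN in 𝓝 p₀, p.1.1 (p₀.2.1 n) = p₀.1.1 (p₀.2.1 n) :=
    ((continuous_fst.tendsto p₀).eventually (eventually_agree w p₀.1 (p₀.2.1 n + 1))).mono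
      (fun p hp => hp _ (Nat.lt_succ_self _))
  filter_upwards [h1, h2] with p hp hq
  rw [mul_apply, mul_apply, hp, hq]

theorem continuous_mul_pt (w : ℕ → NNReal) :
    @Continuous (EndN × EndN) (ℕ → ℕ) (@instTopologicalSpaceProd _ _ (tw w) (tw w)) _
      fun p => (p.1 * p.2).1 := by
  letI := tw w
  refine continuous_pi fun n => continuous_iff_continuousAt.mpr fun p₀ => ?_
  refine (tendsto_const_nhds (x := (p₀.1 * p₀.2).1 n)).congr' ?_
  filter_upwards [eventually_agree_mul w p₀ (n + 1)] with p hp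
  exact (hp n (Nat.lt_succ_self n)).symm

theorem head_congr (w : ℕ → NNReal) {f g : EndN} {K : ℕ} (h : ∀ n < K, f.1 n = g.1 n) :
    head w f K = head w g K := by
  apply Finset.sum_congr rfl
  intro n hn
  rw [h n (Finset.mem_range.mp hn)]

theorem tendsto_mul {w : ℕ → NNReal} (hw : Good w) {p₀ : EndN × EndN} (hf : N w p₀.1 < ⊤)
    (hg : N w p₀.2 < ⊤) :
    Tendsto (fun p : EndN × EndN => N w (p.1 * p.2))
      (@nhds (EndN × EndN) (@instTopologicalSpaceProd _ _ (tw w) (tw w)) p₀)
      (𝓝 (N w (p₀.1 * p₀.2))) := by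
  letI := tw w
  have hfg := N_mul_lt_top hw hf hg
  rw [ENNReal.tendsto_nhds hfg.ne]
  intro ε hε
  obtain ⟨C, hC⟩ := hw.doubling
  have hC1 : ((C : ENNReal) + 1) ≠ 0 := by positivity
  have hC2 : ((C : ENNReal) + 1) ≠ ⊤ := ENNReal.add_ne_top.mpr ⟨ENNReal.coe_ne_top, ENNReal.one_ne_top⟩
  set η : ENNReal := ε / (C + 1) with hη
  have hη0 : 0 < η := ENNReal.div_pos hε.ne' hC2
  have hηε : ((C : ENNReal) + 1) * η = ε := ENNReal.mul_div_cancel hC1 hC2
  have hη2 : 0 < η / 2 := ENNReal.half_pos hη0.ne'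
  obtain ⟨K₀, hK₀⟩ := growth hw ((N w p₀.2).toNNReal + 1)
  have e1 : (((N w p₀.2).toNNReal + 1 : NNReal) : ENNReal) = N w p₀.2 + 1 := by
    rw [ENNReal.coe_add, ENNReal.coe_toNNReal hg.ne, ENNReal.coe_one]
  rw [e1] at hK₀
  obtain ⟨K, hK, hKf, hKg⟩ : ∃ K, K₀ ≤ K ∧ tail w p₀.1 K < η / 2 ∧ tail w p₀.2 K < η / 2 := by
    have h1 := (tail_tendsto hf.ne).eventually (gt_mem_nhds hη2)
    have h2 := (tail_tendsto hg.ne).eventually (gt_mem_nhds hη2)
    obtain ⟨K, hK⟩ := ((eventually_ge_atTop K₀).and (h1.and h2)).exists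
    exact ⟨K, hK.1, hK.2.1, hK.2.2⟩
  have key : ∀ f f' : EndN, (∀ n < K, f.1 n = f'.1 n) → N w f < N w f' + η / 2 →
      tail w f' K < η / 2 → tail w f K ≤ η := by
    intro f f' h1 h2 h3
    rw [← head_add_tail w f K, ← head_add_tail w f' K, head_congr w h1, add_assoc] at h2
    have h4 := (ENNReal.add_lt_add_iff_left (head_ne_top w f' K)).mp h2
    refine h4.le.trans ?_
    calc tail w f' K + η / 2 ≤ η / 2 + η / 2 := add_le_add_left h3.le _
      _ = η := ENNReal.add_halves η
  have main : ∀ f g : EndN, tail w f K ≤ η → tail w g K ≤ η → N w g ≤ N w p₀.2 + 1 →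
      tail w (f * g) K ≤ ε := by
    intro f g h1 h2 h3
    refine (tail_mul hC f g fun n hn => hK₀ g h3 n (hK.trans hn)).trans ?_
    calc (C : ENNReal) * tail w f K + tail w g K ≤ C * η + η :=
          add_le_add (mul_le_mul_right h1 _) h2
      _ = (C + 1) * η := by ring
      _ = ε := hηε
  have lt_add : ∀ a b : ENNReal, a < ⊤ → 0 < b → a < a + b := fun a b h1 h2 =>
    ENNReal.lt_add_right h1.ne h2.ne'
  have c1 : ∀ᶠ p : EndN × EndN in 𝓝 p₀, N w p.1 < N w p₀.1 + η / 2 :=
    ((tendsto_N w hf).comp (continuous_fst.tendsto p₀)).eventually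
      (gt_mem_nhds (lt_add _ _ hf hη2))
  have c2 : ∀ᶠ p : EndN × EndN in 𝓝 p₀, N w p.2 < N w p₀.2 + η / 2 :=
    ((tendsto_N w hg).comp (continuous_snd.tendsto p₀)).eventually
      (gt_mem_nhds (lt_add _ _ hg hη2))
  have c3 : ∀ᶠ p : EndN × EndN in 𝓝 p₀, N w p.2 < N w p₀.2 + 1 :=
    ((tendsto_N w hg).comp (continuous_snd.tendsto p₀)).eventually
      (gt_mem_nhds (lt_add _ _ hg one_pos))
  have c4 := (continuous_fst.tendsto p₀).eventually (eventually_agree w p₀.1 K)
  have c5 := (continuous_snd.tendsto p₀).eventually (eventually_agree w p₀.2 K)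
  have c6 := eventually_agree_mul w p₀ K
  filter_upwards [c1, c2, c3, c4, c5, c6] with p d1 d2 d3 d4 d5 d6
  have h1 := main p.1 p.2 (key _ _ d4 d1 hKf) (key _ _ d5 d2 hKg) d3.le
  have h2 := main p₀.1 p₀.2 (hKf.le.trans ENNReal.half_le_self) (hKg.le.trans ENNReal.half_le_self)
    le_self_add
  rw [mem_Icc, tsub_le_iff_right]
  constructor
  · rw [← head_add_tail w (p₀.1 * p₀.2) K, ← head_add_tail w (p.1 * p.2) K, head_congr w d6]
    exact add_le_add le_self_add h2
  · rw [← head_add_tail w (p₀.1 * p₀.2) K, ← head_add_tail w (p.1 * p.2) K, head_congr w d6]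
    exact add_le_add le_self_add h1

theorem continuousMul_tw {w : ℕ → NNReal} (hw : Good w) : @ContinuousMul EndN (tw w) _ := by
  classical
  letI := tw w
  refine ⟨continuous_induced_rng.mpr ?_⟩
  refine (continuous_mul_pt w).prodMk (Continuous.prodMk ?_ ?_)
  · refine continuous_iff_continuousAt.mpr fun p₀ => ?_
    by_cases hf : N w p₀.1 < ⊤
    · by_cases hg : N w p₀.2 < ⊤
      · exact (ENNReal.tendsto_toReal (N_mul_lt_top hw hf hg).ne).comp (tendsto_mul hw hf hg)
      · have h0 : N w p₀.2 = ⊤ := not_lt_top_iff.mp hg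
        have h1 : ∀ᶠ p : EndN × EndN in 𝓝 p₀, N w p.2 = ⊤ :=
          (continuous_snd.tendsto p₀).eventually ((isOpen_top w).mem_nhds (x := p₀.2) h0)
        refine (tendsto_const_nhds (x := (N w (p₀.1 * p₀.2)).toReal)).congr' ?_
        filter_upwards [h1] with p hp
        have h2 : N w (p.1 * p.2) = ⊤ := by
          by_contra hcon
          exact absurd hp (((N_mul_lt_top_iff hw _ _).mp (lt_top_iff_ne_top.mpr hcon)).2).ne
        have h3 : N w (p₀.1 * p₀.2) = ⊤ := by
          by_contra hcon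
          exact absurd h0 (((N_mul_lt_top_iff hw _ _).mp (lt_top_iff_ne_top.mpr hcon)).2).ne
        show (N w (p₀.1 * p₀.2)).toReal = (N w (p.1 * p.2)).toReal
        rw [h2, h3]
    · have h0 : N w p₀.1 = ⊤ := not_lt_top_iff.mp hf
      have h1 : ∀ᶠ p : EndN × EndN in 𝓝 p₀, N w p.1 = ⊤ :=
        (continuous_fst.tendsto p₀).eventually ((isOpen_top w).mem_nhds (x := p₀.1) h0)
      refine (tendsto_const_nhds (x := (N w (p₀.1 * p₀.2)).toReal)).congr' ?_
      filter_upwards [h1] with p hp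
      have h2 : N w (p.1 * p.2) = ⊤ := by
        by_contra hcon
        exact absurd hp (((N_mul_lt_top_iff hw _ _).mp (lt_top_iff_ne_top.mpr hcon)).1).ne
      have h3 : N w (p₀.1 * p₀.2) = ⊤ := by
        by_contra hcon
        exact absurd h0 (((N_mul_lt_top_iff hw _ _).mp (lt_top_iff_ne_top.mpr hcon)).1).ne
      show (N w (p₀.1 * p₀.2)).toReal = (N w (p.1 * p.2)).toReal
      rw [h2, h3]
  · have h1 : (fun p : EndN × EndN => decide (N w (p.1 * p.2) < ⊤)) =
        fun p => (decide (N w p.1 < ⊤) && decide (N w p.2 < ⊤)) := by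
      funext p
      rw [← Bool.decide_and]
      exact decide_eq_decide.mpr (N_mul_lt_top_iff hw _ _)
    show Continuous fun p : EndN × EndN => decide (N w (p.1 * p.2) < ⊤)
    rw [h1]
    have h2 : Continuous fun q : Bool × Bool => (q.1 && q.2) := continuous_of_discreteTopology
    exact h2.comp (((continuous_dec w).comp continuous_fst).prodMk
      ((continuous_dec w).comp continuous_snd))

end mul

/-! ## The weights and the test elements -/

/-- The weights `(n+1)^(-(1+x))`. -/
noncomputable def wx (x : ℝ) (n : ℕ) : NNReal := ((n : NNReal) + 1) ^ (-(1 + x))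

theorem wx_eq (x : ℝ) (n : ℕ) : wx x n = (((n : NNReal) + 1) ^ (1 + x))⁻¹ := by
  rw [wx, NNReal.rpow_neg]

theorem wx_pos (x : ℝ) (n : ℕ) : 0 < wx x n := NNReal.rpow_pos (by positivity)

theorem good_wx {x : ℝ} (h0 : 0 < x) (h1 : x < 1) : Good (wx x) := by
  have hx : 0 ≤ 1 + x := by linarith
  refine ⟨?_, ⟨4, fun n => ?_⟩, fun M => ?_⟩
  · intro m n hmn
    rw [wx_eq, wx_eq]
    apply inv_anti₀ (NNReal.rpow_pos (by positivity))
    apply NNReal.rpow_le_rpow _ hx
    have : (m : NNReal) ≤ n := by exact_mod_cast hmn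
    gcongr
  · rw [wx_eq, wx_eq]
    have h2 : ((2 * n : ℕ) : NNReal) + 1 ≤ 2 * ((n : NNReal) + 1) := by
      push_cast
      rw [mul_add]
      gcongr
      norm_num
    have h3 : (((2 * n : ℕ) : NNReal) + 1) ^ (1 + x) ≤ 4 * ((n : NNReal) + 1) ^ (1 + x) := by
      refine (NNReal.rpow_le_rpow h2 hx).trans ?_
      rw [NNReal.mul_rpow]
      gcongr
      calc (2 : NNReal) ^ (1 + x) ≤ 2 ^ (2 : ℝ) :=
            NNReal.rpow_le_rpow_of_exponent_le (by norm_num) (by linarith)
        _ = 4 := by rw [NNReal.rpow_two]; norm_num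
    have h4 : 0 < (((2 * n : ℕ) : NNReal) + 1) ^ (1 + x) := NNReal.rpow_pos (by positivity)
    have h5 : 0 < ((n : NNReal) + 1) ^ (1 + x) := NNReal.rpow_pos (by positivity)
    rw [inv_le_iff_one_le_mul₀ h5]
    calc (1 : NNReal) = (((2 * n : ℕ) : NNReal) + 1) ^ (1 + x) *
          ((((2 * n : ℕ) : NNReal) + 1) ^ (1 + x))⁻¹ := (mul_inv_cancel₀ h4.ne').symm
      _ ≤ (4 * ((n : NNReal) + 1) ^ (1 + x)) * ((((2 * n : ℕ) : NNReal) + 1) ^ (1 + x))⁻¹ := by
          gcongr
      _ = _ := by ring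
  · have h2 : Tendsto (fun n : ℕ => (n : ℝ) ^ (1 - x)) atTop atTop :=
      (tendsto_rpow_atTop (by linarith : 0 < 1 - x)).comp tendsto_natCast_atTop_atTop
    obtain ⟨n₀, hn₀⟩ := (h2.eventually (eventually_gt_atTop (9 * (M : ℝ)))).exists_forall_of_atTop
    refine ⟨n₀ + 1, fun n hn => ?_⟩
    have h3 := hn₀ n (by omega)
    have hn0 : (n : NNReal) ≠ 0 := by
      have : n ≠ 0 := by omega
      exact_mod_cast this
    have h3' : 9 * M < (n : NNReal) ^ (1 - x) := by
      rw [← NNReal.coe_lt_coe]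
      push_cast
      exact h3
    have hn1 : (1 : NNReal) ≤ n := by
      have : 1 ≤ n := by omega
      exact_mod_cast this
    have h4 : (((2 * n : ℕ) : NNReal) + 1) ^ (1 + x) ≤ 9 * (n : NNReal) ^ (1 + x) := by
      have h5 : ((2 * n : ℕ) : NNReal) + 1 ≤ 3 * (n : NNReal) := by
        push_cast
        calc 2 * (n : NNReal) + 1 ≤ 2 * n + n := by gcongr
          _ = 3 * n := by ring
      refine (NNReal.rpow_le_rpow h5 hx).trans ?_
      rw [NNReal.mul_rpow]
      gcongr
      calc (3 : NNReal) ^ (1 + x) ≤ 3 ^ (2 : ℝ) :=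
            NNReal.rpow_le_rpow_of_exponent_le (by norm_num) (by linarith)
        _ = 9 := by rw [NNReal.rpow_two]; norm_num
    have h6 : 0 < (((2 * n : ℕ) : NNReal) + 1) ^ (1 + x) := NNReal.rpow_pos (by positivity)
    rw [wx_eq, ← mul_assoc, ← div_eq_mul_inv, lt_div_iff₀ h6]
    have h7 : (n : NNReal) * n = (n : NNReal) ^ (1 - x) * (n : NNReal) ^ (1 + x) := by
      rw [← NNReal.rpow_add hn0, show (1 - x) + (1 + x) = (2 : ℝ) by ring, NNReal.rpow_two, sq]
    rw [h7]
    have h8 : 0 < (n : NNReal) ^ (1 + x) := NNReal.rpow_pos (by positivity)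
    calc M * (((2 * n : ℕ) : NNReal) + 1) ^ (1 + x) ≤ M * (9 * (n : NNReal) ^ (1 + x)) := by gcongr
      _ = (9 * M) * (n : NNReal) ^ (1 + x) := by ring
      _ < (n : NNReal) ^ (1 - x) * (n : NNReal) ^ (1 + x) := by gcongr

/-- The test elements. -/
noncomputable def fy (y : ℝ) : EndN :=
  ⟨fun n => n + ⌊(((n : NNReal) + 1) ^ |y| : NNReal)⌋₊, by
    apply strictMono_nat_of_lt_succ
    intro n
    have h1 : ⌊(((n : NNReal) + 1) ^ |y| : NNReal)⌋₊ ≤
        ⌊((((n + 1 : ℕ) : NNReal) + 1) ^ |y| : NNReal)⌋₊ := by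
      apply Nat.floor_mono
      apply NNReal.rpow_le_rpow _ (abs_nonneg y)
      push_cast
      gcongr
      exact le_self_add
    omega⟩

theorem N_fy (x : ℝ) {y : ℝ} (h0 : 0 < y) :
    N (wx x) (fy y) = ∑' n : ℕ, (((⌊(((n : NNReal) + 1) ^ y : NNReal)⌋₊ : NNReal) * wx x n :
      NNReal) : ENNReal) := by
  apply tsum_congr
  intro n
  have h1 : (fy y).1 n - n = ⌊(((n : NNReal) + 1) ^ y : NNReal)⌋₊ := by
    show n + ⌊(((n : NNReal) + 1) ^ |y| : NNReal)⌋₊ - n = _
    rw [abs_of_pos h0]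
    omega
  rw [h1]
  push_cast
  rfl

theorem summable_shift {p : ℝ} :
    (Summable fun n : ℕ => ((n : NNReal) + 1) ^ p) ↔ p < -1 := by
  rw [← NNReal.summable_rpow, ← NNReal.summable_nat_add_iff (f := fun n : ℕ => (n : NNReal) ^ p) 1]
  simp only [Nat.cast_add, Nat.cast_one]

theorem N_fy_lt {x y : ℝ} (h0 : 0 < y) (hxy : y < x) : N (wx x) (fy y) < ⊤ := by
  rw [N_fy x h0, lt_top_iff_ne_top, ENNReal.tsum_coe_ne_top_iff_summable]
  refine NNReal.summable_of_le (fun n => ?_)
    (summable_shift.mpr (by linarith : y + -(1 + x) < -1))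
  rw [NNReal.rpow_add (by positivity)]
  apply mul_le_mul_left
  exact Nat.floor_le (by positivity)

theorem N_fy_top {x y : ℝ} (h0 : 0 < y) (hxy : x ≤ y) : N (wx x) (fy y) = ⊤ := by
  rw [N_fy x h0]
  by_contra hcon
  rw [← ne_eq, ENNReal.tsum_coe_ne_top_iff_summable] at hcon
  have h1 : Summable fun n : ℕ => ((n : NNReal) + 1) ^ (y + -(1 + x)) := by
    refine NNReal.summable_of_le (fun n => ?_) (hcon.mul_left 2)
    rw [NNReal.rpow_add (by positivity), ← mul_assoc]
    apply mul_le_mul_left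
    have h2 := Nat.lt_floor_add_one (((n : NNReal) + 1) ^ y)
    have h3 : 1 ≤ ((n : NNReal) + 1) ^ y := NNReal.one_le_rpow le_add_self h0.le
    have h4 : 1 ≤ ⌊((n : NNReal) + 1) ^ y⌋₊ := by
      rw [Nat.one_le_floor_iff]
      exact h3
    have h5 : (1 : NNReal) ≤ (⌊((n : NNReal) + 1) ^ y⌋₊ : NNReal) := by exact_mod_cast h4
    calc ((n : NNReal) + 1) ^ y ≤ (⌊((n : NNReal) + 1) ^ y⌋₊ : NNReal) + 1 := h2.le
      _ ≤ (⌊((n : NNReal) + 1) ^ y⌋₊ : NNReal) + (⌊((n : NNReal) + 1) ^ y⌋₊ : NNReal) := by gcongr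
      _ = 2 * _ := by ring
  rw [summable_shift] at h1
  linarith

/-! ## The result -/

/-- `End(ℕ, <)` has no finest Polish semigroup topology: no Polish semigroup topology `t` is finer
than all Polish semigroup topologies `t'` (in Mathlib `t ≤ t'` says that `t` is finer than `t'`). -/
theorem result : ¬ ∃ t : TopologicalSpace EndN, IsPolishSemigroupTopology t ∧
    ∀ t' : TopologicalSpace EndN, IsPolishSemigroupTopology t' → t ≤ t' := by
  rintro ⟨t, ⟨hP, -⟩, hmin⟩
  have hopen : ∀ x : ℝ, 0 < x → x < 1 → IsOpen[t] {f | N (wx x) f = ⊤} := by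
    intro x h0 h1
    have h2 : t ≤ tw (wx x) := hmin _ ⟨polish_tw _, continuousMul_tw (good_wx h0 h1)⟩
    exact h2 _ (isOpen_top (wx x))
  letI := t
  haveI : PolishSpace EndN := hP
  obtain ⟨b, hbc, -, hb⟩ := TopologicalSpace.exists_countable_basis EndN
  have h1 : ∀ x : Ioo (0 : ℝ) 1, ∃ B : b, fy x ∈ (B : Set EndN) ∧
      (B : Set EndN) ⊆ {f | N (wx x) f = ⊤} := by
    intro x
    obtain ⟨B, hB, h2, h3⟩ := hb.exists_subset_of_mem_open
      (show fy x ∈ {f | N (wx x) f = ⊤} from N_fy_top x.2.1 le_rfl) (hopen x x.2.1 x.2.2)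
    exact ⟨⟨B, hB⟩, h2, h3⟩
  choose B hB1 hB2 using h1
  have hinj : Function.Injective B := by
    have key : ∀ x y : Ioo (0 : ℝ) 1, B x = B y → ¬ (x : ℝ) < y := by
      intro x y hxy hlt
      have h2 : fy x ∈ (B y : Set EndN) := hxy ▸ hB1 x
      have h3 : N (wx y) (fy x) = ⊤ := hB2 y h2
      exact absurd h3 (N_fy_lt x.2.1 hlt).ne
    intro x y hxy
    apply Subtype.ext
    exact le_antisymm (not_lt.mp (key y x hxy.symm)) (not_lt.mp (key x y hxy))
  haveI : Countable b := hbc.to_subtype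
  have h2 : Countable (Ioo (0 : ℝ) 1) := hinj.countable
  have h3 : Cardinal.mk (Ioo (0 : ℝ) 1) ≤ Cardinal.aleph0 := Cardinal.mk_le_aleph0_iff.mpr h2
  rw [Cardinal.mk_Ioo_real one_pos] at h3
  exact absurd Cardinal.aleph0_lt_continuum (not_lt.mpr h3)

end Pool.Agent.Results.MP_0c7c8f_al.NoFinest
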